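import Pool.Agent.W189.ML.Star

/-! Growth of `∫ (e^{yu} - 1) / (u Γ(1 + u)) du`. -/

set_option autoImplicit false

namespace Pool.Agent.W189.ML

open MeasureTheory Filter Topology Set

theorem om_nonneg {v : ℝ} (hv : 0 ≤ v) : 0 ≤ om v := by
  unfold om
  have := Real.Gamma_pos_of_pos (by linarith : 0 < 1 + v)
  positivity

theorem om_le {a v : ℝ} (ha : 0 ≤ a) (hv : 0 ≤ v) :
    om v ≤ (Real.exp (Real.exp a) + 1) * Real.exp (-(a * v)) := by
  have h1 := norm_J_le (a := a) (Φ := fun z => Complex.exp (-(z * v))) ha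
    (M := Real.exp (-(a * v))) fun z hz => by
      rw [Complex.norm_exp]
      apply Real.exp_le_exp.2
      have : (-(z * v)).re = -(z.re * v) := by simp
      rw [this]
      have := hz.1
      nlinarith
  rw [J_exp, Complex.norm_real, Real.norm_eq_abs] at h1
  exact (le_abs_self _).trans h1

theorem om_le_const {v : ℝ} (hv : 0 ≤ v) : om v ≤ Real.exp 1 + 1 := by
  have := om_le (a := 0) le_rfl hv
  simpa using this

theorem grow_zero : grow 0 = 0 := by
  unfold grow
  simp

/-- the integrand of `grow` -/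
noncomputable def gi (y u : ℝ) : ℝ := (Real.exp (y * u) - 1) / (u * Real.Gamma (1 + u))

theorem gi_nonneg {y u : ℝ} (hy : 0 ≤ y) (hu : 0 < u) : 0 ≤ gi y u := by
  unfold gi
  have h1 := Real.Gamma_pos_of_pos (by linarith : 0 < 1 + u)
  have h2 : 1 ≤ Real.exp (y * u) := Real.one_le_exp (by positivity)
  have h3 : 0 ≤ Real.exp (y * u) - 1 := by linarith
  positivity

theorem gi_le {y u : ℝ} (hy : 0 ≤ y) (hu : 0 < u) :
    gi y u ≤ (y * (Real.exp (Real.exp (y + 1)) + 1)) * Real.exp (-u) := by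
  have h1 : (Real.exp (y * u) - 1) / u ≤ y * Real.exp (y * u) := by
    rw [div_le_iff₀ hu]
    have := Real.add_one_le_exp (-(y * u))
    have h3 : Real.exp (-(y * u)) * Real.exp (y * u) = 1 := by
      rw [← Real.exp_add]; simp
    nlinarith [Real.exp_pos (y * u)]
  have h2 := om_le (a := y + 1) (by linarith) hu.le
  have h3 : gi y u = ((Real.exp (y * u) - 1) / u) * om u := by
    unfold gi om
    field_simp
  rw [h3]
  calc _ ≤ (y * Real.exp (y * u)) * ((Real.exp (Real.exp (y + 1)) + 1) * Real.exp (-((y + 1) * u))) :=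
        mul_le_mul h1 h2 (om_nonneg hu.le) (by positivity)
    _ = (y * (Real.exp (Real.exp (y + 1)) + 1)) * (Real.exp (y * u) * Real.exp (-((y + 1) * u))) := by
        ring
    _ = _ := by
        rw [← Real.exp_add]
        congr 2
        ring

theorem gi_measurable (y : ℝ) : AEStronglyMeasurable (gi y) (volume.restrict (Ioi 0)) := by
  refine ContinuousOn.aestronglyMeasurable ?_ measurableSet_Ioi
  intro u hu
  have hu' : (0 : ℝ) < u := hu
  have h1 := Real.Gamma_pos_of_pos (by linarith : 0 < 1 + u)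
  have h2 : ContinuousAt Real.Gamma (1 + u) := by
    refine (Real.differentiableAt_Gamma fun m => ?_).continuousAt
    have : (0 : ℝ) ≤ m := m.cast_nonneg
    linarith
  have h3 : ContinuousAt (fun u : ℝ => Real.Gamma (1 + u)) u :=
    ContinuousAt.comp (f := fun u : ℝ => 1 + u) (g := Real.Gamma) h2 (by fun_prop)
  unfold gi
  refine ContinuousAt.continuousWithinAt ?_
  refine ContinuousAt.div (by fun_prop) (continuousAt_id.mul h3) ?_
  exact (mul_pos hu' h1).ne'

theorem gi_int {y : ℝ} (hy : 0 ≤ y) : IntegrableOn (gi y) (Ioi 0) := by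
  refine Integrable.mono' ((integrableOn_exp_neg_Ioi 0).const_mul
    (y * (Real.exp (Real.exp (y + 1)) + 1))) (gi_measurable y) ?_
  filter_upwards [ae_restrict_mem measurableSet_Ioi] with u hu
  rw [Real.norm_eq_abs, abs_of_nonneg (gi_nonneg hy hu)]
  exact gi_le hy hu

theorem grow_nonneg {y : ℝ} (hy : 0 ≤ y) : 0 ≤ grow y :=
  setIntegral_nonneg measurableSet_Ioi fun _ hu => gi_nonneg hy hu

theorem grow_ge_nat {y : ℝ} (hy : 0 ≤ y) {n : ℕ} (hn : 1 ≤ n) :
    (Real.exp (y * n) - 1) / ((n + 1 : ℝ) ^ (n + 2)) ≤ grow y := by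
  have hn1 : (1 : ℝ) ≤ n := by exact_mod_cast hn
  have h1 : ∫ u in Icc (n : ℝ) (n + 1), gi y u ≤ grow y := by
    refine setIntegral_mono_set (gi_int hy) ?_ (ae_of_all _ ?_)
    · filter_upwards [ae_restrict_mem measurableSet_Ioi] with u hu
      exact gi_nonneg hy hu
    · intro u hu
      have := hu.1
      show (0 : ℝ) < u
      linarith
  refine le_trans ?_ h1
  have h2 : ∫ u in Icc (n : ℝ) (n + 1), (Real.exp (y * n) - 1) / ((n + 1 : ℝ) ^ (n + 2)) =
      (Real.exp (y * n) - 1) / ((n + 1 : ℝ) ^ (n + 2)) := by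
    rw [setIntegral_const, Real.volume_real_Icc_of_le (by linarith)]
    simp
  rw [← h2]
  refine setIntegral_mono_on (integrableOn_const (by simp) (by simp)) ((gi_int hy).mono_set ?_)
    measurableSet_Icc fun u hu => ?_
  · intro u hu
    have := hu.1
    show (0 : ℝ) < u
    linarith
  · have hu0 : 0 < u := by linarith [hu.1]
    have h3 : Real.Gamma (1 + u) ≤ (n + 1 : ℝ) ^ (n + 1) := by
      have h4 : Real.Gamma (1 + u) ≤ Real.Gamma ((n + 1 : ℕ) + 1) := by
        refine Real.Gamma_strictMonoOn_Ici.monotoneOn ?_ ?_ ?_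
        · show (2 : ℝ) ≤ 1 + u
          linarith [hu.1]
        · show (2 : ℝ) ≤ _
          push_cast
          linarith
        · push_cast
          linarith [hu.2]
      rw [Real.Gamma_nat_eq_factorial] at h4
      refine h4.trans ?_
      have := Nat.factorial_le_pow (n + 1)
      exact_mod_cast this
    have h4 := Real.Gamma_pos_of_pos (by linarith : 0 < 1 + u)
    have h5 : 0 ≤ Real.exp (y * n) - 1 := by
      have : 1 ≤ Real.exp (y * n) := Real.one_le_exp (by positivity)
      linarith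
    have h6 : Real.exp (y * n) ≤ Real.exp (y * u) :=
      Real.exp_le_exp.2 (mul_le_mul_of_nonneg_left hu.1 hy)
    unfold gi
    have h7 : u * Real.Gamma (1 + u) ≤ (n + 1 : ℝ) ^ (n + 2) := by
      calc u * Real.Gamma (1 + u) ≤ (n + 1 : ℝ) * (n + 1 : ℝ) ^ (n + 1) := by
            gcongr
            exact hu.2
        _ = _ := by ring
    have h8 : 0 ≤ Real.exp (y * u) - 1 := by linarith
    gcongr

theorem grow_ge {y : ℝ} (hy : 5 ≤ y) : Real.exp (Real.exp (y - 2)) ≤ grow y := by
  have hexp : 2.7 < Real.exp 1 := by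
    have := Real.exp_one_gt_d9
    linarith
  set E := Real.exp (y - 2) with hE
  have hE3 : 2 * y + 5 ≤ E := by
    have h1 : E = Real.exp 1 * Real.exp 1 * Real.exp 1 * Real.exp (y - 5) := by
      rw [hE, ← Real.exp_add, ← Real.exp_add, ← Real.exp_add]
      congr 1
      ring
    have h2 := Real.add_one_le_exp (y - 5)
    have h3 : (2.7 : ℝ) * 2.7 * 2.7 ≤ Real.exp 1 * Real.exp 1 * Real.exp 1 := by gcongr
    rw [h1]
    nlinarith
  have hE1 : Real.exp (y - 1) = Real.exp 1 * E := by
    rw [hE, ← Real.exp_add]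
    congr 1
    ring
  set n := ⌊Real.exp (y - 1)⌋₊ - 1 with hn
  have hfl : (15 : ℕ) ≤ ⌊Real.exp (y - 1)⌋₊ := by
    apply Nat.le_floor
    rw [hE1]
    push_cast
    nlinarith
  have hn1 : 1 ≤ n := by omega
  have hnn : (n : ℝ) + 1 = ⌊Real.exp (y - 1)⌋₊ := by
    rw [hn]
    have : 1 ≤ ⌊Real.exp (y - 1)⌋₊ := by omega
    push_cast [Nat.cast_sub this]
    ring
  have hn2 : (n : ℝ) + 1 ≤ Real.exp (y - 1) := by
    rw [hnn]
    exact Nat.floor_le (Real.exp_pos _).le
  have hn3 : Real.exp (y - 1) - 2 ≤ n := by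
    have := Nat.lt_floor_add_one (Real.exp (y - 1))
    linarith
  refine le_trans ?_ (grow_ge_nat (by linarith) hn1)
  have hn1' : (1 : ℝ) ≤ n := by exact_mod_cast hn1
  have h1 : ((n : ℝ) + 1) ^ (n + 2) ≤ Real.exp ((y - 1) * (n + 2)) := by
    calc ((n : ℝ) + 1) ^ (n + 2) ≤ (Real.exp (y - 1)) ^ (n + 2) := by gcongr
      _ = Real.exp ((y - 1) * (n + 2)) := by
        rw [← Real.exp_nat_mul]
        congr 1
        push_cast
        ring
  have h2 : Real.exp (y * n) / 2 ≤ Real.exp (y * n) - 1 := by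
    have h3 : 2 ≤ Real.exp (y * n) := by
      have := Real.add_one_le_exp (y * n)
      nlinarith
    linarith
  have h3 : Real.exp (Real.exp (y - 2)) * 2 ≤ Real.exp (y * n) / Real.exp ((y - 1) * (n + 2)) := by
    rw [← Real.exp_sub]
    have h4 : (2 : ℝ) ≤ Real.exp 1 := by linarith
    calc Real.exp E * 2 ≤ Real.exp E * Real.exp 1 := by gcongr
      _ = Real.exp (E + 1) := by rw [Real.exp_add]
      _ ≤ _ := by
        apply Real.exp_le_exp.2
        rw [hE1] at hn3
        nlinarith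
  rw [le_div_iff₀ (by positivity)]
  have h5 : 0 < Real.exp ((y - 1) * (n + 2)) := Real.exp_pos _
  rw [le_div_iff₀ h5] at h3
  calc Real.exp E * ((n : ℝ) + 1) ^ (n + 2) ≤ Real.exp E * Real.exp ((y - 1) * (n + 2)) := by
        gcongr
    _ ≤ Real.exp (y * n) / 2 := by linarith
    _ ≤ _ := h2

end Pool.Agent.W189.ML
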