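import Pool.Agent.W189.ML.Final

/-! Consequences of the asymptotic formula. -/

set_option autoImplicit false

namespace Pool.Agent.W189.ML

open MeasureTheory Filter Topology Set Classical
open Pool.Agent.W263.BSD

variable {a b : ℤ} {F : ℂ → ℂ}

/-- the case without real zeros to the right of `1` -/
theorem case_one (hF : IsLSeries a b F) {m : ℕ} (hm : analyticOrderAt F ((1 : ℝ) : ℂ) = m)
    (hnz : ∀ σ : ℝ, 1 < σ → F σ ≠ 0) :
    ∃ M : ℝ, ∀ X : ℝ, 3 ≤ X → |mlSum a b X - m * Real.log (Real.log X)| ≤ M := by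
  obtain ⟨x₁, hx1, hx2, -, C, T₀, hC0, hT0, hC⟩ := asymp hF le_rfl zero_le_one (m := m)
    (by rw [add_zero]; exact hm) (fun σ hσ => hnz σ (by linarith))
  have hx10 : x₁ = 0 := le_antisymm hx2 hx1
  obtain ⟨B₁, hB₁⟩ := mean_bound a b T₀
  obtain ⟨B₂, -, hB₂⟩ := ft_bound a b
  refine ⟨max (C * Real.exp 1) (B₁ + B₂ + m * Real.log T₀), fun X hX => ?_⟩
  have he3 : Real.exp 1 < 3 := by
    have := Real.exp_one_lt_d9
    linarith
  have hlog1 : 1 < Real.log X := by
    rw [Real.lt_log_iff_exp_lt (by linarith)]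
    linarith
  by_cases h : T₀ ≤ Real.log X
  · refine le_max_of_le_left ?_
    have := hC X h
    rw [hx10, zero_mul, grow_zero, add_zero, Real.exp_zero] at this
    exact this
  · refine le_max_of_le_right ?_
    push Not at h
    rw [mlSum_eq (T := Real.log X) (by linarith) rfl]
    have h1 := hB₁ (Real.log X) (by linarith) h.le
    have h2 := hB₂ (Real.log X) (by linarith)
    have h3 : 0 ≤ Real.log (Real.log X) := Real.log_nonneg hlog1.le
    have h4 : Real.log (Real.log X) ≤ Real.log T₀ := Real.log_le_log (by linarith) h.le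
    have h5 : (m : ℝ) * Real.log (Real.log X) ≤ m * Real.log T₀ := by gcongr
    have h6 : 0 ≤ (m : ℝ) * Real.log (Real.log X) := by positivity
    have h7 := abs_le.mp h1
    have h8 := abs_le.mp h2
    have h9 : 0 ≤ B₁ := (abs_nonneg _).trans h1
    have h10 : 0 ≤ B₂ := (abs_nonneg _).trans h2
    rw [abs_le]
    constructor <;> linarith [h7.1, h7.2, h8.1, h8.2]

/-- comparison of the exponentials -/
theorem exp_gap {x₀ x₁ : ℝ} (h0 : 0 ≤ x₁) (h1 : x₁ < x₀) :
    ∀ᶠ T : ℝ in atTop, Real.exp (x₁ * T) + 1 + 2 * T ≤ Real.exp (x₀ * T - 2) := by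
  have hd : 0 < x₀ - x₁ := by linarith
  -- exp ((x₀ - x₁) T - 2) ≥ 2 + 2 T eventually
  have h2 : ∀ᶠ T : ℝ in atTop, 2 + 2 * T ≤ Real.exp ((x₀ - x₁) * T - 2) := by
    have h3 := lin_le_exp (4 / (x₀ - x₁))
    have h4 : Tendsto (fun T : ℝ => (x₀ - x₁) * T - 2) atTop atTop :=
      tendsto_atTop_add_const_right _ _ (tendsto_id.const_mul_atTop hd)
    filter_upwards [h4.eventually h3, eventually_ge_atTop (1 + 4 / (x₀ - x₁))] with T h5 h6
    have h7 : 4 / (x₀ - x₁) * ((x₀ - x₁) * T - 2) = 4 * T - 2 * (4 / (x₀ - x₁)) := by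
      field_simp
    rw [h7] at h5
    linarith
  filter_upwards [h2, eventually_ge_atTop 0] with T h3 h4
  have h5 : Real.exp (x₀ * T - 2) = Real.exp (x₁ * T) * Real.exp ((x₀ - x₁) * T - 2) := by
    rw [← Real.exp_add]
    congr 1
    ring
  have h6 : 1 ≤ Real.exp (x₁ * T) := Real.one_le_exp (by positivity)
  rw [h5]
  nlinarith

/-- the case of a real zero to the right of `1` -/
theorem case_gt (hF : IsLSeries a b F) {x₀ : ℝ} (h0 : 0 < x₀) (h1 : x₀ ≤ 1) {m : ℕ}
    (hm : analyticOrderAt F ((1 + x₀ : ℝ) : ℂ) = m) (hz : F ((1 + x₀ : ℝ) : ℂ) = 0)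
    (hnz : ∀ σ : ℝ, 1 + x₀ < σ → F σ ≠ 0) :
    Tendsto (fun X : ℝ => mlSum a b X / grow (x₀ * Real.log X)) atTop (𝓝 m) ∧
    ∀ c < x₀, ∀ᶠ X : ℝ in atTop, Real.exp (X ^ c) ≤ mlSum a b X := by
  obtain ⟨x₁, hx1, hx2, hx3, C, T₀, hC0, hT0, hC⟩ := asymp hF h0.le h1 hm hnz
  have hx3' := hx3 h0
  have hm1 : 1 ≤ m := by
    rw [Nat.one_le_iff_ne_zero]
    intro h
    rw [h] at hm
    have : AnalyticAt ℂ F ((1 + x₀ : ℝ) : ℂ) := hF.1.analyticAt _
    exact (this.analyticOrderAt_eq_zero.1 (by simpa using hm)) hz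
  have hm1' : (1 : ℝ) ≤ m := by exact_mod_cast hm1
  have hlog : Tendsto Real.log atTop atTop := Real.tendsto_log_atTop
  -- quantitative closeness
  have key : ∀ᶠ X : ℝ in atTop, |mlSum a b X - m * grow (x₀ * Real.log X)| ≤
      (C + m) * Real.exp (-Real.log X) * grow (x₀ * Real.log X) := by
    have e1 := hlog.eventually (exp_gap hx1 hx3')
    have e2 := hlog.eventually (eventually_ge_atTop T₀)
    have e3 := hlog.eventually (eventually_ge_atTop (5 / x₀))
    filter_upwards [e1, e2, e3] with X h2 h3 h4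
    set T := Real.log X with hT
    have hT1 : 1 ≤ T := hT0.trans h3
    have h5 : 5 ≤ x₀ * T := by
      rw [div_le_iff₀ h0] at h4
      linarith
    have h6 := grow_ge h5
    have h7 := hC X h3
    set g := grow (x₀ * T) with hg
    have hlogT : Real.log T ≤ T := (Real.log_le_sub_one_of_pos (by linarith)).trans (by linarith)
    have hlogT0 : 0 ≤ Real.log T := Real.log_nonneg hT1
    set ee := Real.exp (Real.exp (x₁ * T)) with hee
    have h1e : 1 ≤ ee := Real.one_le_exp (Real.exp_pos _).le
    -- T * ee ≤ exp (-T) * g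
    have h8 : T * ee ≤ Real.exp (-T) * g := by
      have h9 : T ≤ Real.exp T := by
        have := Real.add_one_le_exp T
        linarith
      calc T * ee ≤ Real.exp T * ee := by gcongr
        _ = Real.exp (-T) * Real.exp (Real.exp (x₁ * T) + 2 * T) := by
          rw [hee, ← Real.exp_add, ← Real.exp_add]
          congr 1
          ring
        _ ≤ Real.exp (-T) * Real.exp (Real.exp (x₀ * T - 2)) := by
          gcongr
          linarith
        _ ≤ _ := by gcongr
    have h10 : |mlSum a b X - m * g| ≤ C * ee + m * Real.log T := by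
      have h11 : mlSum a b X - m * g = (mlSum a b X - m * (Real.log T + g)) + m * Real.log T := by ring
      rw [h11]
      refine (abs_add_le _ _).trans (add_le_add h7 ?_)
      rw [abs_of_nonneg (by positivity)]
    refine h10.trans ?_
    have h12 : C * ee ≤ C * (T * ee) := by
      gcongr
      nlinarith
    have h13 : (m : ℝ) * Real.log T ≤ m * (T * ee) := by
      gcongr
      nlinarith
    calc C * ee + m * Real.log T ≤ (C + m) * (T * ee) := by linarith
      _ ≤ (C + m) * (Real.exp (-T) * g) := by gcongr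
      _ = _ := by ring
  have hgpos : ∀ᶠ X : ℝ in atTop, Real.exp (Real.exp (x₀ * Real.log X - 2)) ≤
      grow (x₀ * Real.log X) := by
    have e3 := hlog.eventually (eventually_ge_atTop (5 / x₀))
    filter_upwards [e3] with X h4
    refine grow_ge ?_
    rw [div_le_iff₀ h0] at h4
    linarith
  constructor
  · rw [tendsto_iff_norm_sub_tendsto_zero]
    refine squeeze_zero' (g := fun X => (C + m) * Real.exp (-Real.log X))
      (Eventually.of_forall fun X => norm_nonneg _) ?_ ?_
    · filter_upwards [key, hgpos] with X h2 h3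
      have hg : 0 < grow (x₀ * Real.log X) := (Real.exp_pos _).trans_le h3
      have h4 : mlSum a b X / grow (x₀ * Real.log X) - m =
          (mlSum a b X - m * grow (x₀ * Real.log X)) / grow (x₀ * Real.log X) := by
        field_simp
      rw [h4, Real.norm_eq_abs, abs_div, abs_of_pos hg, div_le_iff₀ hg]
      exact h2
    · have h5 : Tendsto (fun X : ℝ => Real.exp (-Real.log X)) atTop (𝓝 0) :=
        Real.tendsto_exp_neg_atTop_nhds_zero.comp hlog
      have := h5.const_mul (C + m)
      simpa using this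
  · intro c hc
    set c' := max c 0 with hc'
    have hc0 : 0 ≤ c' := le_max_right _ _
    have hc1 : c' < x₀ := max_lt hc h0
    have e1 := hlog.eventually (exp_gap hc0 hc1)
    have e4 : ∀ᶠ X : ℝ in atTop, (C + m) * Real.exp (-Real.log X) ≤ 1 / 2 := by
      have h5 : Tendsto (fun X : ℝ => (C + m) * Real.exp (-Real.log X)) atTop (𝓝 ((C + m) * 0)) :=
        (Real.tendsto_exp_neg_atTop_nhds_zero.comp hlog).const_mul (C + m)
      rw [mul_zero] at h5
      exact h5.eventually (eventually_le_nhds (by norm_num))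
    filter_upwards [key, hgpos, e1, e4, eventually_ge_atTop 1, hlog.eventually (eventually_ge_atTop 1)]
      with X h2 h3 h4 h5 h6 h7
    set T := Real.log X with hT
    set g := grow (x₀ * T) with hg
    have hg0 : 0 < g := (Real.exp_pos _).trans_le h3
    have h8 : X ^ c ≤ Real.exp (c' * T) := by
      calc X ^ c ≤ X ^ c' := Real.rpow_le_rpow_of_exponent_le h6 (le_max_left _ _)
        _ = Real.exp (c' * T) := by
          rw [Real.rpow_def_of_pos (by linarith)]
          congr 1
          ring
    have h9 : g / 2 ≤ mlSum a b X := by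
      have h10 := (abs_le.mp h2).1
      have h11 : (C + m) * Real.exp (-T) * g ≤ 1 / 2 * g := by gcongr
      have h12 : g ≤ m * g := le_mul_of_one_le_left hg0.le hm1'
      linarith
    have h10 : 2 * Real.exp (X ^ c) ≤ g := by
      have h11 : (2 : ℝ) ≤ Real.exp 1 := by
        have := Real.add_one_le_exp (1 : ℝ)
        linarith
      calc 2 * Real.exp (X ^ c) ≤ Real.exp 1 * Real.exp (Real.exp (c' * T)) := by gcongr
        _ = Real.exp (1 + Real.exp (c' * T)) := by rw [Real.exp_add]
        _ ≤ Real.exp (Real.exp (x₀ * T - 2)) := by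
          gcongr
          linarith
        _ ≤ g := h3
    linarith

end Pool.Agent.W189.ML
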