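import Pool.Agent.W189.ML.LogKer

/-! The abstract theorem: Mittag-Leffler means of the logarithm of an Euler product at the central
point. -/

set_option autoImplicit false

namespace Pool.Agent.W189.ML

open Complex MeasureTheory Filter Topology Set
open scoped Interval

/-- Dirichlet coefficients `c i` with frequencies `lam i`, and a function `G` which is holomorphic in
the right half plane and bounded in a sector. -/
structure SData {ι : Type} (lam : ι → ℝ) (c : ι → ℝ) (G : ℂ → ℂ) : Prop where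
  lam_pos : ∀ i, 0 ≤ lam i
  sum : Summable fun i => |c i| * Real.exp (-(2 * lam i))
  Gd : ∀ w : ℂ, 0 < w.re → DifferentiableAt ℂ G w
  Gb : ∃ C : ℝ, ∀ w : ℂ, 0 < w.re → ‖w‖ ≤ 5 * w.re → ‖G w‖ ≤ C
  G2 : (G 2).im = 0

/-- the generalised Dirichlet series -/
noncomputable def ser {ι : Type} (lam : ι → ℝ) (c : ι → ℝ) (w : ℂ) : ℂ :=
  ∑' i, (c i : ℂ) * exp (-(w * lam i))

/-- the Mittag-Leffler mean -/
noncomputable def mean {ι : Type} (lam : ι → ℝ) (c : ι → ℝ) (T : ℝ) : ℝ :=
  ∑' i, c i * om (lam i / T)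

variable {ι : Type} {lam : ι → ℝ} {c : ι → ℝ} {G : ℂ → ℂ}

theorem SData.term_le (D : SData lam c G) {w : ℂ} (hw : 2 ≤ w.re) (i : ι) :
    ‖(c i : ℂ) * exp (-(w * lam i))‖ ≤ |c i| * Real.exp (-(2 * lam i)) := by
  rw [norm_mul, Complex.norm_real, Real.norm_eq_abs, Complex.norm_exp]
  refine mul_le_mul_of_nonneg_left ?_ (abs_nonneg _)
  apply Real.exp_le_exp.2
  have : (-(w * lam i)).re = -(w.re * lam i) := by simp
  rw [this]
  nlinarith [D.lam_pos i]

theorem SData.ser_le (D : SData lam c G) {w : ℂ} (hw : 2 ≤ w.re) :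
    ‖ser lam c w‖ ≤ ∑' i, |c i| * Real.exp (-(2 * lam i)) :=
  tsum_of_norm_bounded D.sum.hasSum fun i => D.term_le hw i

theorem SData.ser_cont (D : SData lam c G) : ContinuousOn (ser lam c) {w | 2 ≤ w.re} := by
  unfold ser
  exact continuousOn_tsum (fun i => by fun_prop) D.sum fun i w hw => D.term_le hw i

theorem SData.ser_two (lam : ι → ℝ) (c : ι → ℝ) : (ser lam c 2).im = 0 := by
  have h1 : ser lam c 2 = ((∑' i, c i * Real.exp (-(2 * lam i)) : ℝ) : ℂ) := by
    unfold ser
    rw [Complex.ofReal_tsum]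
    refine tsum_congr fun i => ?_
    push_cast
    rfl
  rw [h1, Complex.ofReal_im]

/-- the mean as a contour integral -/
theorem SData.mean_eq [Countable ι] (D : SData lam c G) {T b : ℝ} (hT : 1 ≤ T) (hb : 2 * T ≤ b) :
    J b (fun z => ser lam c (z / T)) = (mean lam c T : ℂ) ∧
    Summable (fun i => |c i * om (lam i / T)|) := by
  have hT0 : (0 : ℝ) < T := by linarith
  have hb0 : 0 ≤ b := by linarith
  have hre : ∀ z ∈ HS b, 2 ≤ (z / T).re := by
    intro z hz
    have : (z / T).re = z.re / T := by simp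
    rw [this, le_div_iff₀ hT0]
    exact hb.trans hz.1
  have h1 := J_hasSum (a := b) hb0 (F := fun i z => (c i : ℂ) * exp (-(z / T * lam i))) D.sum
    (fun i => ⟨by fun_prop, |c i| * Real.exp (-(2 * lam i)), 0, by positivity, le_rfl, fun z hz => by
      have := D.term_le (hre z hz) i
      linarith⟩) fun i z hz => D.term_le (hre z hz) i
  have h2 : ∀ i, J b (fun z => (c i : ℂ) * exp (-(z / T * lam i))) =
      ((c i * om (lam i / T) : ℝ) : ℂ) := by
    intro i
    have e3 : (fun z : ℂ => (c i : ℂ) * exp (-(z / T * lam i))) =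
        fun z => (c i : ℂ) * exp (-(z * ((lam i / T : ℝ) : ℂ))) := by
      funext z
      congr 2
      push_cast
      ring
    rw [e3, J_const_mul, J_exp]
    unfold om
    push_cast
    rfl
  simp only [h2] at h1
  have h3 := h1.tsum_eq
  rw [← Complex.ofReal_tsum] at h3
  exact ⟨h3.symm, (Complex.summable_ofReal.1 h1.summable).abs⟩

/-- **Main abstract theorem.** -/
theorem SData.main [Countable ι] (D : SData lam c G) {x₀ x₁ : ℝ} (h0 : 0 ≤ x₁) (h01 : x₁ ≤ x₀)
    (h1 : x₀ ≤ 1) (m : ℤ) (Q : ℂ → ℂ) (hQ : ∀ x ∈ Icc x₁ 2, AnalyticAt ℂ Q (x : ℂ))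
    (hQp : ∀ x ∈ Icc x₁ 2, Q (x : ℂ) ∈ slitPlane) (hQ2 : (log (Q 2)).im = 0)
    (hΦ : ∀ᶠ w in 𝓝 (2 : ℂ), exp (G w - ser lam c w) = (w - x₀) ^ m * Q w)
    (hcont : ContinuousAt (ser lam c) 2) :
    ∃ C T₀ : ℝ, ∀ T ≥ T₀, |mean lam c T - m * (Real.log T + grow (x₀ * T))| ≤
      C * Real.exp (Real.exp (x₁ * T)) := by
  obtain ⟨CG, hCG⟩ := D.Gb
  have hx0 : 0 ≤ x₀ := h0.trans h01
  -- the branch of the logarithm
  obtain ⟨δ, hδ, hbr⟩ : ∃ δ > 0, ∀ w : ℂ, dist w 2 < δ →
      G w - ser lam c w = m * log (w - x₀) + log (Q w) := by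
    set d : ℂ → ℂ := fun w => G w - ser lam c w - m * log (w - x₀) - log (Q w) with hd
    have hs2 : (2 : ℂ) - x₀ ∈ slitPlane := by
      left
      simp
      linarith
    have hQ2a : AnalyticAt ℂ Q 2 := by
      have := hQ 2 ⟨by linarith, le_rfl⟩
      simpa using this
    have hQ2s : Q 2 ∈ slitPlane := by
      have := hQp 2 ⟨by linarith, le_rfl⟩
      simpa using this
    have hdc : ContinuousAt d 2 := by
      refine ContinuousAt.sub (ContinuousAt.sub (ContinuousAt.sub
        (D.Gd 2 (by norm_num)).continuousAt hcont) ?_) ?_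
      · refine continuousAt_const.mul (ContinuousAt.clog (by fun_prop) hs2)
      · exact hQ2a.continuousAt.clog hQ2s
    have hexp : ∀ᶠ w in 𝓝 (2 : ℂ), exp (d w) = 1 := by
      have e1 : ∀ᶠ w in 𝓝 (2 : ℂ), w - (x₀ : ℂ) ∈ slitPlane := by
        have : ContinuousAt (fun w : ℂ => w - (x₀ : ℂ)) 2 := by fun_prop
        exact this.eventually (isOpen_slitPlane.mem_nhds hs2)
      have e2 : ∀ᶠ w in 𝓝 (2 : ℂ), Q w ∈ slitPlane :=
        hQ2a.continuousAt.eventually (isOpen_slitPlane.mem_nhds hQ2s)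
      filter_upwards [hΦ, e1, e2] with w h3 h4 h5
      have h6 := slitPlane_ne_zero h4
      have h7 := slitPlane_ne_zero h5
      rw [hd]
      simp only
      rw [Complex.exp_sub, Complex.exp_sub, h3, Complex.exp_int_mul, Complex.exp_log h6,
        Complex.exp_log h7]
      field_simp
    have hd2 : d 2 = 0 := by
      have e1 := hexp.self_of_nhds
      have e2 : (d 2).im = 0 := by
        rw [hd]
        simp only [Complex.sub_im, D.G2, SData.ser_two lam c, hQ2, sub_zero, Complex.mul_im,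
          Complex.intCast_re, Complex.intCast_im, zero_mul, add_zero, zero_sub, neg_eq_zero]
        have : (2 : ℂ) - x₀ = ((2 - x₀ : ℝ) : ℂ) := by push_cast; rfl
        rw [this, ← Complex.ofReal_log (by linarith), Complex.ofReal_im, mul_zero]
      have e3 : d 2 = ((d 2).re : ℂ) := by
        apply Complex.ext <;> simp [e2]
      rw [e3, ← Complex.ofReal_exp] at e1
      have e4 : Real.exp (d 2).re = 1 := by exact_mod_cast e1
      rw [Real.exp_eq_one_iff] at e4
      rw [e3, e4]
      simp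
    have hsmall : ∀ᶠ w in 𝓝 (2 : ℂ), ‖d w‖ < 1 := by
      have := hdc.norm
      have h3 : ‖d 2‖ < 1 := by rw [hd2]; simp
      exact this.eventually (gt_mem_nhds h3)
    have hz : ∀ᶠ w in 𝓝 (2 : ℂ), d w = 0 := by
      filter_upwards [hexp, hsmall] with w e1 e2
      obtain ⟨n, hn⟩ := Complex.exp_eq_one_iff.1 e1
      by_cases hn0 : n = 0
      · rw [hn, hn0]; simp
      · exfalso
        rw [hn] at e2
        rw [norm_mul, norm_mul, norm_mul, Complex.norm_I, Complex.norm_real, Real.norm_eq_abs,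
          abs_of_pos Real.pi_pos, Complex.norm_intCast] at e2
        have : (1 : ℝ) ≤ |(n : ℝ)| := by
          have := Int.one_le_abs hn0
          exact_mod_cast this
        have h3 := Real.pi_gt_three
        norm_num at e2
        nlinarith
    obtain ⟨δ, hδ, h3⟩ := Metric.eventually_nhds_iff.1 hz
    refine ⟨δ, hδ, fun w hw => ?_⟩
    have := h3 hw
    rw [hd] at this
    simp only at this
    linear_combination this
  -- the thin rectangle
  obtain ⟨δ₂, hδ₂, M, hM0, hM, hQd⟩ : ∃ δ₂ > 0, ∃ M : ℝ, 0 ≤ M ∧ (∀ w : ℂ, x₁ ≤ w.re → w.re ≤ 2 →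
      |w.im| ≤ δ₂ → ‖log (Q w)‖ ≤ M) ∧ (∀ w : ℂ, x₁ ≤ w.re → w.re ≤ 2 →
      |w.im| ≤ δ₂ → DifferentiableAt ℂ (fun w => log (Q w)) w) := by
    set Kc : Set ℂ := (fun x : ℝ => (x : ℂ)) '' Icc x₁ 2 with hKc
    have hKcc : IsCompact Kc := isCompact_Icc.image (by fun_prop)
    set U : Set ℂ := {w | AnalyticAt ℂ Q w ∧ Q w ∈ slitPlane} with hU
    have hUo : IsOpen U := by
      rw [isOpen_iff_mem_nhds]
      rintro w ⟨hw1, hw2⟩
      filter_upwards [hw1.eventually_analyticAt,
        hw1.continuousAt.eventually (isOpen_slitPlane.mem_nhds hw2)] with v h3 h4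
      exact ⟨h3, h4⟩
    have hKU : Kc ⊆ U := by
      rintro _ ⟨x, hx, rfl⟩
      exact ⟨hQ x hx, hQp x hx⟩
    obtain ⟨δ₂, hδ₂, hsub⟩ := hKcc.exists_cthickening_subset_open hUo hKU
    have hcc : IsCompact (Metric.cthickening δ₂ Kc) := hKcc.cthickening
    have hlc : ContinuousOn (fun w => log (Q w)) (Metric.cthickening δ₂ Kc) := by
      intro w hw
      obtain ⟨h3, h4⟩ := hsub hw
      exact (h3.continuousAt.clog h4).continuousWithinAt
    obtain ⟨M, hM⟩ := hcc.exists_bound_of_continuousOn hlc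
    have hmem : ∀ w : ℂ, x₁ ≤ w.re → w.re ≤ 2 → |w.im| ≤ δ₂ → w ∈ Metric.cthickening δ₂ Kc := by
      intro w h3 h4 h5
      refine Metric.mem_cthickening_of_dist_le w (w.re : ℂ) δ₂ Kc ⟨w.re, ⟨h3, h4⟩, rfl⟩ ?_
      rw [Complex.dist_eq]
      have : w - (w.re : ℂ) = (w.im : ℂ) * I := by
        apply Complex.ext <;> simp
      rw [this, norm_mul, Complex.norm_I, mul_one, Complex.norm_real, Real.norm_eq_abs]
      exact h5
    refine ⟨δ₂, hδ₂, |M|, abs_nonneg _, fun w h3 h4 h5 => (hM w (hmem w h3 h4 h5)).trans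
      (le_abs_self M), fun w h3 h4 h5 => ?_⟩
    obtain ⟨h6, h7⟩ := hsub (hmem w h3 h4 h5)
    exact h6.differentiableAt.clog h7
  set C3 : ℝ := |CG| + ∑' i, |c i| * Real.exp (-(2 * lam i)) with hC3
  have hC30 : 0 ≤ C3 := by
    have : 0 ≤ ∑' i, |c i| * Real.exp (-(2 * lam i)) := tsum_nonneg fun i => by positivity
    positivity
  refine ⟨(Real.exp (Real.exp 1) + 1) * |CG| + |(m : ℝ)| * (‖J 1 log‖ + 8) + 2 * M + C3,
    Real.pi / δ + Real.pi / δ₂ + 1, fun T hT => ?_⟩
  have hpi := Real.pi_pos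
  have hq1 : 0 < Real.pi / δ := by positivity
  have hq2 : 0 < Real.pi / δ₂ := by positivity
  have hT1 : 1 ≤ T := by linarith
  have hT0 : 0 < T := by linarith
  have hTδ : Real.pi / T < δ := by
    rw [div_lt_iff₀ hT0, mul_comm, ← div_lt_iff₀ hδ]; linarith
  have hTδ₂ : Real.pi / T ≤ δ₂ := by
    rw [div_le_iff₀ hT0, mul_comm, ← div_le_iff₀ hδ₂]; linarith
  set b : ℝ := 2 * T with hb
  have hb0 : 0 ≤ b := by positivity
  have hb1 : 1 ≤ b := by linarith
  have hTc : (T : ℂ) ≠ 0 := by exact_mod_cast hT0.ne'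
  have hdre : ∀ z : ℂ, (z / T).re = z.re / T := fun z => by simp
  have hdim : ∀ z : ℂ, (z / T).im = z.im / T := fun z => by simp
  -- sector bound on the half strip
  have hsec : ∀ z ∈ HS 1, ‖G (z / T)‖ ≤ |CG| := by
    intro z hz
    have h3 : 0 < (z / T).re := by
      rw [hdre]
      have := hz.1
      positivity
    refine (hCG _ h3 ?_).trans (le_abs_self _)
    rw [hdre, norm_div, Complex.norm_real, Real.norm_eq_abs, abs_of_pos hT0, ← mul_div_assoc]
    refine div_le_div_of_nonneg_right ?_ hT0.le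
    have h4 := Complex.norm_le_abs_re_add_abs_im z
    rw [abs_of_nonneg (by have := hz.1; linarith : 0 ≤ z.re)] at h4
    have := hz.1
    have := hz.2
    have := Real.pi_lt_four
    linarith
  have hGcont : ContinuousOn (fun z : ℂ => G (z / T)) (HS 1) := by
    intro z hz
    have h3 : 0 < (z / T).re := by
      rw [hdre]
      have := hz.1
      positivity
    have h4 : DifferentiableAt ℂ (fun z : ℂ => G (z / T)) z :=
      DifferentiableAt.comp (g := G) (f := fun z : ℂ => z / T) z (D.Gd _ h3) (by fun_prop)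
    exact h4.continuousAt.continuousWithinAt
  have hGdiff : DifferentiableOn ℂ (fun z : ℂ => G (z / T)) (HS 1) := by
    intro z hz
    have h3 : 0 < (z / T).re := by
      rw [hdre]
      have := hz.1
      positivity
    have h4 : DifferentiableAt ℂ (fun z : ℂ => G (z / T)) z :=
      DifferentiableAt.comp (g := G) (f := fun z : ℂ => z / T) z (D.Gd _ h3) (by fun_prop)
    exact h4.differentiableWithinAt
  have admG : Adm 1 (fun z : ℂ => G (z / T)) :=
    ⟨hGcont, |CG|, 0, abs_nonneg _, le_rfl, fun z hz => by have := hsec z hz; linarith⟩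
  have hre2 : ∀ z ∈ HS b, 2 ≤ (z / T).re := by
    intro z hz
    rw [hdre, le_div_iff₀ hT0]
    exact hz.1
  have admS : Adm b (fun z : ℂ => ser lam c (z / T)) := by
    refine ⟨D.ser_cont.comp (by fun_prop) hre2, ∑' i, |c i| * Real.exp (-(2 * lam i)), 0,
      tsum_nonneg fun i => by positivity, le_rfl, fun z hz => ?_⟩
    have := D.ser_le (hre2 z hz)
    linarith
  -- E1, E2, E3
  obtain ⟨E1, -⟩ := D.mean_eq hT1 hb.symm.le
  have E3 : J b (fun z => G (z / T)) = J 1 (fun z => G (z / T)) :=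
    (J_shift' zero_le_one hb1 admG hGdiff).symm
  have E3' := norm_J_le (a := 1) zero_le_one hsec
  have E2 : J b (fun z => G (z / T) - ser lam c (z / T)) =
      J 1 (fun z => G (z / T)) - (mean lam c T : ℂ) := by
    rw [J_sub hb0 (admG.mono hb1) admS, E3, E1]
  -- E4
  have hellb : ∀ z ∈ HS b, ‖G (z / T) - ser lam c (z / T)‖ ≤ C3 := by
    intro z hz
    refine (norm_sub_le _ _).trans (add_le_add (hsec z (HS_mono hb1 hz)) (D.ser_le (hre2 z hz)))
  have admL : Adm b (fun z => G (z / T) - ser lam c (z / T)) :=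
    ⟨(admG.mono hb1).cont.sub admS.cont, C3, 0, hC30, le_rfl, fun z hz => by
      have := hellb z hz; linarith⟩
  have E4 : ‖∫ x in Ioi b, rho (fun z => G (z / T) - ser lam c (z / T)) x‖ ≤ C3 := by
    have := norm_rays_le (Φ := fun z => G (z / T) - ser lam c (z / T)) hb0 hC30 le_rfl (s := Ioi b)
      (fun x hx => by have := hellb _ (up_mem (le_of_lt hx)); linarith)
      (fun x hx => by have := hellb _ (down_mem (le_of_lt hx)); linarith) subset_rfl measurableSet_Ioi
    linarith
  obtain ⟨admlog, hlogb⟩ := adm_log (b := b) hT1 hx0 h1 hb.symm.le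
  have E6 : ‖∫ x in Ioi b, rho (fun z => log (z / T - x₀)) x‖ ≤ 8 := by
    have := norm_rays_le (Φ := fun z => log (z / T - x₀)) (A := 7) (B := 1) hb0 (by norm_num)
      (by norm_num) (s := Ioi b)
      (fun x hx => by have := hlogb _ (up_mem (le_of_lt hx)); simpa using this)
      (fun x hx => by have := hlogb _ (down_mem (le_of_lt hx)); simpa using this)
      subset_rfl measurableSet_Ioi
    linarith
  have E7 := J_log (b := b) hT1 hx0 h1 hb.symm.le
  -- the vertical part of `log Q`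
  have E8 : V b (fun z => G (z / T) - ser lam c (z / T)) - m * V b (fun z => log (z / T - x₀)) =
      V b (fun z => log (Q (z / T))) := by
    have admm : Adm b (fun z => (m : ℂ) * log (z / T - x₀)) := by
      refine ⟨continuousOn_const.mul admlog.cont, |(m : ℝ)| * 7, |(m : ℝ)| * 1, by positivity,
        by positivity, fun z hz => ?_⟩
      rw [norm_mul, Complex.norm_intCast]
      have := hlogb z hz
      calc |(m : ℝ)| * ‖log (z / T - x₀)‖ ≤ |(m : ℝ)| * (7 + 1 * z.re) := by gcongr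
        _ = _ := by ring
    rw [← V_const_mul, ← V_sub admL admm]
    refine V_congr fun y hy => ?_
    have h3 : dist (((b : ℂ) + y * I) / T) 2 < δ := by
      rw [Complex.dist_eq]
      have : ((b : ℂ) + y * I) / T - 2 = ((y / T : ℝ) : ℂ) * I := by
        rw [hb]
        push_cast
        field_simp
        ring
      rw [this, norm_mul, Complex.norm_I, mul_one, Complex.norm_real, Real.norm_eq_abs, abs_div,
        abs_of_pos hT0]
      exact (div_le_div_of_nonneg_right hy hT0.le).trans_lt hTδ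
    rw [hbr _ h3]
    ring
  have hsubr : ∀ z ∈ [[x₁ * T, b]] ×ℂ [[-Real.pi, Real.pi]],
      x₁ ≤ (z / T).re ∧ (z / T).re ≤ 2 ∧ |(z / T).im| ≤ δ₂ := by
    intro z hz
    rw [mem_reProdIm, uIcc_of_le (by nlinarith : x₁ * T ≤ b), uIcc_of_le (by linarith)] at hz
    rw [hdre, hdim]
    refine ⟨?_, ?_, ?_⟩
    · rw [le_div_iff₀ hT0]; exact hz.1.1
    · rw [div_le_iff₀ hT0]; exact hz.1.2
    · rw [abs_div, abs_of_pos hT0]
      exact (div_le_div_of_nonneg_right (abs_le.2 hz.2) hT0.le).trans hTδ₂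
  have hab : x₁ * T ≤ b := by nlinarith
  have ha0 : 0 ≤ x₁ * T := by positivity
  have E9 : V b (fun z => log (Q (z / T))) = V (x₁ * T) (fun z => log (Q (z / T))) +
      ∫ x in (x₁ * T)..b, rho (fun z => log (Q (z / T))) x := by
    refine V_shift fun z hz => ?_
    obtain ⟨h3, h4, h5⟩ := hsubr z hz
    have h6 : DifferentiableAt ℂ (fun z : ℂ => log (Q (z / T))) z :=
      DifferentiableAt.comp (g := fun w => log (Q w)) (f := fun z : ℂ => z / T) z
        (hQd _ h3 h4 h5) (by fun_prop)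
    exact h6.differentiableWithinAt
  have E10 : ‖V (x₁ * T) (fun z => log (Q (z / T)))‖ ≤ Real.exp (Real.exp (x₁ * T)) * M := by
    refine norm_V_le fun y hy => ?_
    obtain ⟨h3, h4, h5⟩ := hsubr ((x₁ * T : ℝ) + y * I) (by
      rw [mem_reProdIm, uIcc_of_le hab, uIcc_of_le (by linarith)]
      refine ⟨⟨?_, ?_⟩, ?_⟩
      · simp
      · simp; linarith
      · simpa using abs_le.1 hy)
    exact hM _ h3 h4 h5
  have E11 : ‖∫ x in (x₁ * T)..b, rho (fun z => log (Q (z / T))) x‖ ≤ M := by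
    rw [intervalIntegral.integral_of_le hab]
    have hu : ∀ x ∈ Ioc (x₁ * T) b, ‖log (Q ((x + Real.pi * I) / T))‖ ≤ M := by
      intro x hx
      obtain ⟨h3, h4, h5⟩ := hsubr (x + Real.pi * I) (by
        rw [mem_reProdIm, uIcc_of_le hab, uIcc_of_le (by linarith)]
        refine ⟨?_, ?_⟩
        · simpa using Ioc_subset_Icc_self hx
        · simp; linarith)
      exact hM _ h3 h4 h5
    have hd : ∀ x ∈ Ioc (x₁ * T) b, ‖log (Q ((x - Real.pi * I) / T))‖ ≤ M := by
      intro x hx
      obtain ⟨h3, h4, h5⟩ := hsubr (x - Real.pi * I) (by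
        rw [mem_reProdIm, uIcc_of_le hab, uIcc_of_le (by linarith)]
        refine ⟨?_, ?_⟩
        · simpa using Ioc_subset_Icc_self hx
        · simp; linarith)
      exact hM _ h3 h4 h5
    have := norm_rays_le (Φ := fun z => log (Q (z / T))) ha0 hM0 le_rfl
      (s := Ioc (x₁ * T) b) (fun x hx => by have := hu x hx; linarith)
      (fun x hx => by have := hd x hx; linarith) Ioc_subset_Ioi_self measurableSet_Ioc
    linarith
  -- conclusion
  have E12 : ((mean lam c T - m * (Real.log T + grow (x₀ * T)) : ℝ) : ℂ) =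
      J 1 (fun z => G (z / T)) - m * J 1 log + m * (∫ x in Ioi b, rho (fun z => log (z / T - x₀)) x) -
      V (x₁ * T) (fun z => log (Q (z / T))) - (∫ x in (x₁ * T)..b, rho (fun z => log (Q (z / T))) x) -
      ∫ x in Ioi b, rho (fun z => G (z / T) - ser lam c (z / T)) x := by
    rw [E9] at E8
    unfold J at E2 E7
    push_cast
    unfold J
    linear_combination E2 - m * E7 - E8
  have E13 : ‖((mean lam c T - m * (Real.log T + grow (x₀ * T)) : ℝ) : ℂ)‖ ≤
      (Real.exp (Real.exp 1) + 1) * |CG| + |(m : ℝ)| * ‖J 1 log‖ + |(m : ℝ)| * 8 +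
      Real.exp (Real.exp (x₁ * T)) * M + M + C3 := by
    rw [E12]
    refine (norm_sub_le _ _).trans (add_le_add ?_ E4)
    refine (norm_sub_le _ _).trans (add_le_add ?_ E11)
    refine (norm_sub_le _ _).trans (add_le_add ?_ E10)
    refine (norm_add_le _ _).trans (add_le_add ?_ ?_)
    · refine (norm_sub_le _ _).trans (add_le_add E3' ?_)
      rw [norm_mul, Complex.norm_intCast]
    · rw [norm_mul, Complex.norm_intCast]
      gcongr
  rw [Complex.norm_real, Real.norm_eq_abs] at E13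
  refine E13.trans ?_
  set ee := Real.exp (Real.exp (x₁ * T)) with hee
  have h1e : 1 ≤ ee := Real.one_le_exp (Real.exp_pos _).le
  have hX : 0 ≤ (Real.exp (Real.exp 1) + 1) * |CG| := by positivity
  have hY : 0 ≤ |(m : ℝ)| * (‖J 1 log‖ + 8) := by positivity
  nlinarith [mul_nonneg hX (sub_nonneg.2 h1e), mul_nonneg hY (sub_nonneg.2 h1e),
    mul_nonneg hM0 (sub_nonneg.2 h1e), mul_nonneg hC30 (sub_nonneg.2 h1e)]

end Pool.Agent.W189.ML
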