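import Pool.Agent.W189.ML.Kernel

/-! Hankel's formula for the reciprocal of the Gamma function on the contour around the half
strip. -/

set_option autoImplicit false

namespace Pool.Agent.W189.ML

open Complex MeasureTheory Filter Topology Set
open scoped Interval

/-- `exp (-exp x)` decays faster than any exponential -/
theorem lin_le_exp (c : ℝ) : ∀ᶠ x : ℝ in atTop, c * x ≤ Real.exp x := by
  filter_upwards [eventually_ge_atTop (2 * |c|), eventually_ge_atTop 0] with x hx hx0
  have h1 := Real.quadratic_le_exp_of_nonneg hx0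
  have h2 : c * x ≤ |c| * x := mul_le_mul_of_nonneg_right (le_abs_self c) hx0
  nlinarith [abs_nonneg c]

theorem ray_isBigO (c : ℝ) : (fun x : ℝ => Real.exp (-Real.exp x)) =O[atTop]
    fun x => Real.exp (-c * x) := by
  refine Asymptotics.IsBigO.of_bound 1 ?_
  filter_upwards [lin_le_exp c] with x hx
  rw [one_mul, Real.norm_eq_abs, Real.norm_eq_abs, Real.abs_exp, Real.abs_exp]
  exact Real.exp_le_exp.2 (by linarith)

/-- integrability on the rays -/
theorem integrableOn_ray_exp (a c : ℝ) :
    IntegrableOn (fun x : ℝ => Real.exp (-Real.exp x) * Real.exp (c * x)) (Ioi a) := by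
  refine integrable_of_isBigO_exp_neg (b := 1) one_pos (by fun_prop) ?_
  have h := (ray_isBigO (c + 1)).mul (Asymptotics.isBigO_refl (fun x : ℝ => Real.exp (c * x)) atTop)
  refine h.trans (Asymptotics.isBigO_of_le _ fun x => ?_)
  rw [← Real.exp_add]
  apply le_of_eq
  congr 2
  ring

theorem rho_exp (v : ℝ) (x : ℝ) : rho (fun z => exp (-(z * v))) x =
    ((-(Real.sin (Real.pi * v) / Real.pi) * (Real.exp (-Real.exp x) * Real.exp (-v * x)) : ℝ) : ℂ) := by
  unfold rho
  beta_reduce
  have h1 : exp (-((x + Real.pi * I) * v)) = exp ((-v * x : ℝ)) * exp (-(Real.pi * v) * I) := by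
    rw [← Complex.exp_add]; congr 1; push_cast; ring
  have h2 : exp (-((x - Real.pi * I) * v)) = exp ((-v * x : ℝ)) * exp ((Real.pi * v) * I) := by
    rw [← Complex.exp_add]; congr 1; push_cast; ring
  have h3 : exp (-(Real.pi * v : ℂ) * I) - exp ((Real.pi * v : ℂ) * I) =
      -2 * Complex.sin (Real.pi * v) * I := by
    rw [Complex.sin]
    ring_nf
    rw [I_sq]
    ring
  rw [h1, h2, ← mul_sub, h3]
  push_cast
  have hpi : (Real.pi : ℂ) ≠ 0 := by exact_mod_cast Real.pi_ne_zero
  have hI : I ≠ 0 := I_ne_zero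
  field_simp

theorem integrableOn_rho_exp (a v : ℝ) :
    IntegrableOn (rho fun z => exp (-(z * v))) (Ioi a) := by
  have h1 : (rho fun z => exp (-(z * v))) = fun x : ℝ =>
      ((-(Real.sin (Real.pi * v) / Real.pi) * (Real.exp (-Real.exp x) * Real.exp (-v * x)) : ℝ) : ℂ) :=
    funext fun x => rho_exp v x
  rw [h1]
  exact ((integrableOn_ray_exp a (-v)).const_mul _).ofReal

theorem J_shift {a b : ℝ} (hab : a ≤ b) {Φ : ℂ → ℂ}
    (h : DifferentiableOn ℂ Φ ([[a, b]] ×ℂ [[-Real.pi, Real.pi]]))
    (hi : IntegrableOn (rho Φ) (Ioi a)) : J a Φ = J b Φ := by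
  unfold J
  rw [V_shift h, ← intervalIntegral.integral_Ioi_sub_Ioi hi hab]
  ring

theorem J_exp_shift (a b v : ℝ) : J a (fun z => exp (-(z * v))) = J b (fun z => exp (-(z * v))) := by
  have hd : Differentiable ℂ fun z : ℂ => exp (-(z * v)) := by fun_prop
  rcases le_total a b with h | h
  · exact J_shift h hd.differentiableOn (integrableOn_rho_exp a v)
  · exact (J_shift h hd.differentiableOn (integrableOn_rho_exp b v)).symm

theorem norm_V_exp_le (a v : ℝ) : ‖V a (fun z => exp (-(z * v)))‖ ≤
    Real.exp (Real.exp a) * Real.exp (-v * a) := by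
  unfold V
  rw [norm_mul, norm_inv]
  have h1 : ‖(2 * Real.pi : ℂ)‖ = 2 * Real.pi := by
    rw [norm_mul, Complex.norm_real, Real.norm_eq_abs, abs_of_pos Real.pi_pos]
    norm_num
  rw [h1]
  have h2 : ‖∫ y in (-Real.pi)..Real.pi, K (a + y * I) * exp (-((a + y * I) * v))‖ ≤
      (Real.exp (Real.exp a) * Real.exp (-v * a)) * |Real.pi - -Real.pi| := by
    refine intervalIntegral.norm_integral_le_of_norm_le_const fun y _ => ?_
    rw [norm_mul]
    refine mul_le_mul (norm_K_le a y) ?_ (norm_nonneg _) (Real.exp_pos _).le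
    rw [Complex.norm_exp]
    apply le_of_eq
    congr 1
    simp
    ring
  have h3 : |Real.pi - -Real.pi| = 2 * Real.pi := by
    rw [sub_neg_eq_add, ← two_mul, abs_of_pos (by positivity)]
  rw [h3] at h2
  calc (2 * Real.pi)⁻¹ * _ ≤ (2 * Real.pi)⁻¹ *
      ((Real.exp (Real.exp a) * Real.exp (-v * a)) * (2 * Real.pi)) :=
        mul_le_mul_of_nonneg_left h2 (by positivity)
    _ = _ := by
      have := Real.pi_pos
      field_simp

theorem gamma_int {v : ℝ} (hv : 0 < v) :
    Integrable (fun x : ℝ => Real.exp (-Real.exp x) * Real.exp (v * x)) ∧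
    ∫ x : ℝ, Real.exp (-Real.exp x) * Real.exp (v * x) = Real.Gamma v := by
  have himg : Real.exp '' univ = Ioi 0 := by
    rw [image_univ, Real.range_exp]
  have hd : ∀ x ∈ (univ : Set ℝ), HasDerivWithinAt Real.exp (Real.exp x) univ x := fun x _ =>
    (Real.hasDerivAt_exp x).hasDerivWithinAt
  have h1 := integrableOn_image_iff_integrableOn_abs_deriv_smul MeasurableSet.univ hd
    Real.exp_injective.injOn (fun x : ℝ => Real.exp (-x) * x ^ (v - 1))
  have h2 := integral_image_eq_integral_abs_deriv_smul MeasurableSet.univ hd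
    Real.exp_injective.injOn (fun x : ℝ => Real.exp (-x) * x ^ (v - 1))
  have h3 : (fun x : ℝ => |Real.exp x| • (Real.exp (-Real.exp x) * Real.exp x ^ (v - 1))) =
      fun x : ℝ => Real.exp (-Real.exp x) * Real.exp (v * x) := by
    funext x
    rw [Real.abs_exp, smul_eq_mul, ← Real.exp_mul, mul_left_comm, ← Real.exp_add]
    congr 2
    ring
  rw [himg, h3] at h1 h2
  rw [integrableOn_univ] at h1
  rw [setIntegral_univ] at h2
  exact ⟨h1.1 (Real.GammaIntegral_convergent hv), by rw [← h2, Real.Gamma_eq_integral hv]⟩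

/-- Hankel's formula for negative arguments -/
theorem J_exp_neg {v : ℝ} (h0 : v < 0) (a : ℝ) :
    J a (fun z => exp (-(z * v))) = ((Real.Gamma (1 + v))⁻¹ : ℝ) := by
  obtain ⟨hint, hval⟩ := gamma_int (v := -v) (by linarith)
  set g : ℝ → ℂ := rho fun z => exp (-(z * v)) with hg
  have hg' : g = fun x : ℝ =>
      ((-(Real.sin (Real.pi * v) / Real.pi) * (Real.exp (-Real.exp x) * Real.exp (-v * x)) : ℝ) : ℂ) :=
    funext fun x => rho_exp v x
  have hgi : Integrable g := by
    rw [hg']
    exact (hint.const_mul _).ofReal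
  have hgv : ∫ x, g x = ((-(Real.sin (Real.pi * v) / Real.pi) * Real.Gamma (-v) : ℝ) : ℂ) := by
    rw [hg', integral_complex_ofReal, integral_const_mul, hval]
  have hlim : Tendsto (fun b : ℝ => J b (fun z => exp (-(z * v)))) atBot (𝓝 (0 + ∫ x, g x)) := by
    refine Tendsto.add ?_ ?_
    · refine squeeze_zero_norm (fun b => norm_V_exp_le b v) ?_
      have e1 : Tendsto (fun b : ℝ => Real.exp (Real.exp b)) atBot (𝓝 (Real.exp 0)) :=
        (Real.continuous_exp.tendsto 0).comp Real.tendsto_exp_atBot
      have e2 : Tendsto (fun b : ℝ => Real.exp (-v * b)) atBot (𝓝 0) := by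
        refine Real.tendsto_exp_atBot.comp ?_
        exact tendsto_id.const_mul_atBot (by linarith)
      have := e1.mul e2
      simpa using this
    · exact (aecover_Ioi tendsto_id).integral_tendsto_of_countably_generated hgi
  have hconst : (fun b : ℝ => J b (fun z => exp (-(z * v)))) =
      fun _ => J a (fun z => exp (-(z * v))) := funext fun b => J_exp_shift b a v
  rw [hconst] at hlim
  have := tendsto_nhds_unique hlim tendsto_const_nhds
  rw [← this, zero_add, hgv]
  congr 1
  have h1 := Real.Gamma_mul_Gamma_one_sub (-v)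
  rw [sub_neg_eq_add] at h1
  have h2 : Real.sin (Real.pi * -v) = - Real.sin (Real.pi * v) := by
    rw [mul_neg, Real.sin_neg]
  rw [h2] at h1
  by_cases hs : Real.sin (Real.pi * v) = 0
  · rw [hs] at h1 ⊢
    simp only [neg_zero, div_zero, mul_eq_zero] at h1
    rcases h1 with h1 | h1
    · rw [h1]
      exfalso
      exact (Real.Gamma_pos_of_pos (by linarith : (0 : ℝ) < -v)).ne' h1
    · rw [h1]; simp
  · have h3 : Real.Gamma (1 + v) ≠ 0 := by
      intro h
      rw [h, mul_zero] at h1
      have := Real.pi_pos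
      have h4 := div_ne_zero this.ne' (neg_ne_zero.2 hs)
      exact h4 h1.symm
    have hpi := Real.pi_pos.ne'
    have h5 : Real.Gamma (-v) * Real.Gamma (1 + v) * Real.sin (Real.pi * v) = -Real.pi := by
      rw [h1]
      field_simp
    apply eq_inv_of_mul_eq_one_left
    field_simp
    linarith

theorem J_exp_zero (a : ℝ) : J a (fun z => exp (-(z * ((0 : ℝ) : ℂ)))) = 1 := by
  have hV : ∀ b : ℝ, J b (fun z => exp (-(z * ((0 : ℝ) : ℂ)))) =
      (2 * Real.pi : ℂ)⁻¹ * ∫ y in (-Real.pi)..Real.pi, K (b + y * I) := by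
    intro b
    have h1 : ∀ x : ℝ, rho (fun z => exp (-(z * ((0 : ℝ) : ℂ)))) x = 0 := by
      intro x; rw [rho_exp]; simp
    unfold J
    rw [setIntegral_congr_fun measurableSet_Ioi (fun x _ => h1 x)]
    unfold V
    simp
  have hlim : Tendsto (fun b : ℝ => J b (fun z => exp (-(z * ((0 : ℝ) : ℂ))))) atBot (𝓝 1) := by
    rw [tendsto_iff_norm_sub_tendsto_zero]
    have hb : ∀ b : ℝ, b ≤ 0 → ‖J b (fun z => exp (-(z * ((0 : ℝ) : ℂ)))) - 1‖ ≤
        2 * Real.exp b := by
      intro b hb0
      have h1 : (1 : ℂ) = (2 * Real.pi : ℂ)⁻¹ * ∫ y in (-Real.pi)..Real.pi, (1 : ℂ) := by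
        rw [intervalIntegral.integral_const, sub_neg_eq_add, ← two_mul]
        have : (Real.pi : ℂ) ≠ 0 := by exact_mod_cast Real.pi_ne_zero
        simp
        field_simp
      have hci : Continuous fun y : ℝ => K (b + y * I) := continuous_K.comp (by fun_prop)
      rw [hV b]
      have h1' : (2 * Real.pi : ℂ)⁻¹ * (∫ y in (-Real.pi)..Real.pi, K (b + y * I)) - 1 =
          (2 * Real.pi : ℂ)⁻¹ * (∫ y in (-Real.pi)..Real.pi, K (b + y * I)) -
          (2 * Real.pi : ℂ)⁻¹ * ∫ y in (-Real.pi)..Real.pi, (1 : ℂ) := by rw [← h1]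
      rw [h1', ← mul_sub, ← intervalIntegral.integral_sub (hci.intervalIntegrable _ _)
        (continuous_const.intervalIntegrable _ _), norm_mul, norm_inv]
      have h2 : ‖(2 * Real.pi : ℂ)‖ = 2 * Real.pi := by
        rw [norm_mul, Complex.norm_real, Real.norm_eq_abs, abs_of_pos Real.pi_pos]
        norm_num
      have h3 : ‖∫ y in (-Real.pi)..Real.pi, (K (b + y * I) - 1)‖ ≤
          (2 * Real.exp b) * |Real.pi - -Real.pi| := by
        refine intervalIntegral.norm_integral_le_of_norm_le_const fun y _ => ?_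
        unfold K
        have h4 : ‖exp ((b : ℂ) + y * I)‖ = Real.exp b := by
          rw [Complex.norm_exp]; simp
        have := Complex.norm_exp_sub_one_le (x := exp ((b : ℂ) + y * I))
          (by rw [h4]; exact Real.exp_le_one_iff.2 hb0)
        rwa [h4] at this
      have h4 : |Real.pi - -Real.pi| = 2 * Real.pi := by
        rw [sub_neg_eq_add, ← two_mul, abs_of_pos (by positivity)]
      rw [h2]
      rw [h4] at h3
      calc (2 * Real.pi)⁻¹ * _ ≤ (2 * Real.pi)⁻¹ *
          ((2 * Real.exp b) * (2 * Real.pi)) :=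
            mul_le_mul_of_nonneg_left h3 (by positivity)
        _ = _ := by
          have := Real.pi_pos
          field_simp
    refine squeeze_zero' (Eventually.of_forall fun b => norm_nonneg _)
      ((eventually_le_atBot 0).mono hb) ?_
    have := Real.tendsto_exp_atBot.const_mul 2
    simpa using this
  have hconst : (fun b : ℝ => J b (fun z => exp (-(z * ((0 : ℝ) : ℂ))))) =
      fun _ => J a (fun z => exp (-(z * ((0 : ℝ) : ℂ)))) := funext fun b => J_exp_shift b a 0
  rw [hconst] at hlim
  exact tendsto_nhds_unique tendsto_const_nhds hlim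

/-- the recurrence, by partial integration -/
theorem J_exp_rec (a v : ℝ) : J a (fun z => exp (-(z * ((v - 1 : ℝ) : ℂ)))) =
    v * J a (fun z => exp (-(z * v))) := by
  set G : ℂ → ℂ := fun z => K z * exp (-(z * v)) with hG
  set G' : ℂ → ℂ := fun z => K z * exp (-(z * ((v - 1 : ℝ) : ℂ))) - v * (K z * exp (-(z * v))) with hG'
  have hder : ∀ z, HasDerivAt G (G' z) z := by
    intro z
    have h1 : HasDerivAt K (K z * exp z) z := (Complex.hasDerivAt_exp (exp z)).comp z
      (Complex.hasDerivAt_exp z)
    have h2 : HasDerivAt (fun z : ℂ => exp (-(z * v))) (exp (-(z * v)) * (-(1 * v))) z :=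
      ((hasDerivAt_id z).mul_const (v : ℂ)).neg.cexp
    have h3 := h1.mul h2
    refine h3.congr_deriv ?_
    rw [hG']
    have h4 : exp (-(z * ((v - 1 : ℝ) : ℂ))) = exp z * exp (-(z * v)) := by
      rw [← Complex.exp_add]; congr 1; push_cast; ring
    simp only
    rw [h4]
    ring
  have hGc : Continuous G' := by
    rw [hG']
    have := continuous_K
    fun_prop
  -- vertical part
  have hV : V a (fun z => exp (-(z * ((v - 1 : ℝ) : ℂ)))) - v * V a (fun z => exp (-(z * v))) =
      (2 * Real.pi * I : ℂ)⁻¹ * (G (a + Real.pi * I) - G (a - Real.pi * I)) := by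
    have h1 : ∫ y in (-Real.pi)..Real.pi, G' (a + y * I) * I =
        G (a + Real.pi * I) - G (a + ((-Real.pi : ℝ) : ℂ) * I) := by
      refine intervalIntegral.integral_eq_sub_of_hasDerivAt
        (f := fun y : ℝ => G (a + y * I)) (fun y _ => ?_) ?_
      · have h2 : HasDerivAt (fun y : ℝ => (a : ℂ) + y * I) I y := by
          have := ((hasDerivAt_id y).ofReal_comp.mul_const I).const_add (a : ℂ)
          simpa using this
        exact (hder _).comp y h2
      · refine Continuous.intervalIntegrable ?_ _ _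
        exact (hGc.comp (by fun_prop)).mul continuous_const
    have h2 : (a : ℂ) + ((-Real.pi : ℝ) : ℂ) * I = a - Real.pi * I := by push_cast; ring
    rw [h2] at h1
    unfold V
    have hc1 : Continuous fun y : ℝ => K (a + y * I) * exp (-((a + y * I) * ((v - 1 : ℝ) : ℂ))) := by
      have := continuous_K
      fun_prop
    have hc2 : Continuous fun y : ℝ => K (a + y * I) * exp (-((a + y * I) * v)) := by
      have := continuous_K
      fun_prop
    have h3 : ∫ y in (-Real.pi)..Real.pi, G' (a + y * I) * I =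
        ((∫ y in (-Real.pi)..Real.pi, K (a + y * I) * exp (-((a + y * I) * ((v - 1 : ℝ) : ℂ)))) -
        v * ∫ y in (-Real.pi)..Real.pi, K (a + y * I) * exp (-((a + y * I) * v))) * I := by
      have hc3 : Continuous fun y : ℝ => (v : ℂ) * (K (a + y * I) * exp (-((a + y * I) * v))) :=
        continuous_const.mul hc2
      rw [← intervalIntegral.integral_const_mul, ← intervalIntegral.integral_sub
        (hc1.intervalIntegrable _ _) (hc3.intervalIntegrable _ _),
        ← intervalIntegral.integral_mul_const]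
    rw [h3] at h1
    rw [← h1]
    have hpi : (Real.pi : ℂ) ≠ 0 := by exact_mod_cast Real.pi_ne_zero
    have hI : I ≠ 0 := I_ne_zero
    generalize (∫ y in (-Real.pi)..Real.pi, K (a + y * I) * exp (-((a + y * I) * ((v - 1 : ℝ) : ℂ)))) = A
    generalize (∫ y in (-Real.pi)..Real.pi, K (a + y * I) * exp (-((a + y * I) * v))) = B
    field_simp
  -- the rays
  have hR : (∫ x in Ioi a, rho (fun z => exp (-(z * ((v - 1 : ℝ) : ℂ)))) x) -
      v * (∫ x in Ioi a, rho (fun z => exp (-(z * v))) x) =
      -((2 * Real.pi * I : ℂ)⁻¹ * (G (a + Real.pi * I) - G (a - Real.pi * I))) := by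
    rw [← integral_const_mul, ← integral_sub (integrableOn_rho_exp a (v - 1))
      ((integrableOn_rho_exp a v).const_mul _)]
    set f : ℝ → ℂ := fun x => (2 * Real.pi * I : ℂ)⁻¹ * (G (x + Real.pi * I) - G (x - Real.pi * I))
      with hf
    have h1 : ∀ x : ℝ, rho (fun z => exp (-(z * ((v - 1 : ℝ) : ℂ)))) x -
        v * rho (fun z => exp (-(z * v))) x =
        (2 * Real.pi * I : ℂ)⁻¹ * (G' (x + Real.pi * I) - G' (x - Real.pi * I)) := by
      intro x
      rw [hG']
      simp only [K_add', K_sub', rho]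
      ring
    have h2 : ∀ x ∈ Ici a, HasDerivAt f
        ((2 * Real.pi * I : ℂ)⁻¹ * (G' (x + Real.pi * I) - G' (x - Real.pi * I))) x := by
      intro x _
      have e1 : HasDerivAt (fun x : ℝ => (x : ℂ) + Real.pi * I) 1 x := by
        have := (hasDerivAt_id x).ofReal_comp.add_const (Real.pi * I : ℂ)
        simpa using this
      have e2 : HasDerivAt (fun x : ℝ => (x : ℂ) - Real.pi * I) 1 x := by
        have := (hasDerivAt_id x).ofReal_comp.sub_const (Real.pi * I : ℂ)
        simpa using this
      have e3 := (hder (x + Real.pi * I)).comp x e1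
      have e4 := (hder (x - Real.pi * I)).comp x e2
      have e5 := (e3.sub e4).const_mul (2 * Real.pi * I : ℂ)⁻¹
      refine e5.congr_deriv ?_
      ring
    have h3 : Tendsto f atTop (𝓝 0) := by
      have e1 : ∀ x : ℝ, f x = rho (fun z => exp (-(z * v))) x := by
        intro x
        rw [hf, hG]
        simp only [K_add', K_sub', rho]
        ring
      have e2 : Tendsto (fun x : ℝ => rho (fun z => exp (-(z * v))) x) atTop (𝓝 0) := by
        have e3 : (fun x : ℝ => Real.exp (-Real.exp x) * Real.exp (-v * x)) =O[atTop]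
            fun x => Real.exp (-1 * x) := by
          have h := (ray_isBigO (-v + 1)).mul
            (Asymptotics.isBigO_refl (fun x : ℝ => Real.exp (-v * x)) atTop)
          refine h.trans (Asymptotics.isBigO_of_le _ fun x => ?_)
          rw [← Real.exp_add]
          apply le_of_eq
          congr 2
          ring
        have e4 : Tendsto (fun x : ℝ => Real.exp (-1 * x)) atTop (𝓝 0) :=
          Real.tendsto_exp_atBot.comp (tendsto_id.const_mul_atTop_of_neg (by norm_num))
        have e5 := e3.trans_tendsto e4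
        have e6 := e5.const_mul (-(Real.sin (Real.pi * v) / Real.pi))
        rw [mul_zero] at e6
        have e7 : (fun x : ℝ => rho (fun z => exp (-(z * v))) x) = fun x : ℝ =>
          ((-(Real.sin (Real.pi * v) / Real.pi) * (Real.exp (-Real.exp x) * Real.exp (-v * x)) : ℝ) : ℂ) :=
          funext fun x => rho_exp v x
        rw [e7]
        exact (Complex.continuous_ofReal.tendsto' 0 0 Complex.ofReal_zero).comp e6
      exact e2.congr fun x => (e1 x).symm
    have h4 := integral_Ioi_of_hasDerivAt_of_tendsto' h2 (by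
      have h5 : IntegrableOn (fun x : ℝ => rho (fun z => exp (-(z * ((v - 1 : ℝ) : ℂ)))) x -
        v * rho (fun z => exp (-(z * v))) x) (Ioi a) :=
        (integrableOn_rho_exp a (v - 1)).sub ((integrableOn_rho_exp a v).const_mul _)
      exact h5.congr_fun (fun x _ => h1 x) measurableSet_Ioi) h3
    rw [setIntegral_congr_fun measurableSet_Ioi (fun x _ => h1 x), h4, zero_sub]
  unfold J
  linear_combination hV + hR

/-- **Hankel's formula** -/
theorem J_exp (a v : ℝ) :
    J a (fun z => exp (-(z * v))) = ((Real.Gamma (1 + v))⁻¹ : ℝ) := by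
  have key : ∀ n : ℕ, ∀ v : ℝ, v ≤ n → J a (fun z => exp (-(z * v))) = ((Real.Gamma (1 + v))⁻¹ : ℝ) := by
    intro n
    induction n with
    | zero =>
      intro v hv
      rcases (show v ≤ 0 by simpa using hv).lt_or_eq with h | h
      · exact J_exp_neg h a
      · rw [h, J_exp_zero]; simp
    | succ n ih =>
      intro v hv
      by_cases h0 : v ≤ 0
      · rcases h0.lt_or_eq with h | h
        · exact J_exp_neg h a
        · rw [h, J_exp_zero]; simp
      push Not at h0
      have h1 := ih (v - 1) (by push_cast at hv; linarith)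
      rw [J_exp_rec] at h1
      have h2 : (v : ℂ) ≠ 0 := by exact_mod_cast h0.ne'
      have h3 : Real.Gamma (1 + v) = v * Real.Gamma v := by
        rw [add_comm, Real.Gamma_add_one h0.ne']
      have h4 : J a (fun z => exp (-(z * v))) = (v : ℂ)⁻¹ * ((Real.Gamma (1 + (v - 1)))⁻¹ : ℝ) := by
        rw [← h1, ← mul_assoc, inv_mul_cancel₀ h2, one_mul]
      rw [h4, h3, show 1 + (v - 1) = v by ring, mul_inv]
      push_cast
      rfl
  obtain ⟨n, hn⟩ := exists_nat_ge v
  exact key n v hn

end Pool.Agent.W189.ML
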