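import Mathlib

/-! The Mittag-Leffler kernel `exp (exp z)` and the contour integral around the half strip
`|Im z| ≤ π`. -/

set_option autoImplicit false

namespace Pool.Agent.W189.ML

open Complex MeasureTheory Filter Topology Set
open scoped Interval

/-- the kernel -/
noncomputable def K (z : ℂ) : ℂ := exp (exp z)

theorem differentiable_K : Differentiable ℂ K := differentiable_exp.comp differentiable_exp

theorem continuous_K : Continuous K := differentiable_K.continuous

theorem norm_K (x y : ℝ) : ‖K (x + y * I)‖ = Real.exp (Real.exp x * Real.cos y) := by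
  unfold K
  rw [Complex.norm_exp, Complex.exp_re]
  simp

theorem norm_K_le (x y : ℝ) : ‖K (x + y * I)‖ ≤ Real.exp (Real.exp x) := by
  rw [norm_K]
  apply Real.exp_le_exp.2
  have := Real.cos_le_one y
  nlinarith [Real.exp_pos x]

theorem K_add (x : ℝ) : K (x + (Real.pi : ℝ) * I) = (Real.exp (-Real.exp x) : ℝ) := by
  unfold K
  rw [Complex.exp_add, Complex.exp_pi_mul_I]
  push_cast
  ring_nf

theorem K_sub (x : ℝ) : K (x - (Real.pi : ℝ) * I) = (Real.exp (-Real.exp x) : ℝ) := by
  unfold K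
  rw [Complex.exp_sub, Complex.exp_pi_mul_I]
  push_cast
  rw [div_neg, div_one]

theorem K_add' (x : ℝ) : K (x + (Real.pi : ℂ) * I) = (Real.exp (-Real.exp x) : ℝ) := K_add x

theorem K_sub' (x : ℝ) : K (x - (Real.pi : ℂ) * I) = (Real.exp (-Real.exp x) : ℝ) := K_sub x

/-- the vertical part of the contour integral -/
noncomputable def V (a : ℝ) (Φ : ℂ → ℂ) : ℂ :=
  (2 * Real.pi : ℂ)⁻¹ * ∫ y in (-Real.pi)..Real.pi, K (a + y * I) * Φ (a + y * I)

/-- the integrand of the two rays -/
noncomputable def rho (Φ : ℂ → ℂ) (x : ℝ) : ℂ :=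
  (2 * Real.pi * I)⁻¹ * ((Real.exp (-Real.exp x) : ℝ) *
    (Φ (x + Real.pi * I) - Φ (x - Real.pi * I)))

/-- the contour integral -/
noncomputable def J (a : ℝ) (Φ : ℂ → ℂ) : ℂ := V a Φ + ∫ x in Ioi a, rho Φ x

theorem V_shift {a b : ℝ} {Φ : ℂ → ℂ}
    (h : DifferentiableOn ℂ Φ ([[a, b]] ×ℂ [[-Real.pi, Real.pi]])) :
    V b Φ = V a Φ + ∫ x in a..b, rho Φ x := by
  have h1 := Complex.integral_boundary_rect_eq_zero_of_differentiableOn
    (fun z => K z * Φ z) (a + (-Real.pi : ℝ) * I) (b + (Real.pi : ℝ) * I) (by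
      simp only [add_re, ofReal_re, mul_re, I_re, mul_zero, ofReal_im, I_im, mul_one, sub_self,
        add_zero, add_im, mul_im, zero_add]
      exact differentiable_K.differentiableOn.mul h)
  simp only [add_re, ofReal_re, mul_re, I_re, mul_zero, ofReal_im, I_im, mul_one, sub_self,
    add_zero, add_im, mul_im, zero_add, smul_eq_mul] at h1
  have h2 : ∀ x : ℝ, (x : ℂ) + ((-Real.pi : ℝ) : ℂ) * I = x - (Real.pi : ℂ) * I := by
    intro x; push_cast; ring
  simp only [h2, K_add', K_sub'] at h1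
  have hc1 : ContinuousOn (fun x : ℝ => Φ (x + Real.pi * I)) [[a, b]] := by
    refine h.continuousOn.comp (by fun_prop) ?_
    intro x hx
    simp only [mem_reProdIm, add_re, ofReal_re, mul_re, I_re, mul_zero, ofReal_im, I_im, mul_one,
      sub_self, add_zero, add_im, mul_im, zero_add]
    exact ⟨hx, right_mem_uIcc⟩
  have hc2 : ContinuousOn (fun x : ℝ => Φ (x - Real.pi * I)) [[a, b]] := by
    refine h.continuousOn.comp (by fun_prop) ?_
    intro x hx
    simp only [mem_reProdIm, sub_re, ofReal_re, mul_re, I_re, mul_zero, ofReal_im, I_im, mul_one,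
      sub_self, sub_zero, sub_im, mul_im, zero_sub]
    exact ⟨by simpa using hx, by simp⟩
  have hi1 : IntervalIntegrable (fun x : ℝ => ((Real.exp (-Real.exp x) : ℝ) : ℂ) *
      Φ (x + Real.pi * I)) volume a b := by
    refine ContinuousOn.intervalIntegrable (ContinuousOn.mul ?_ hc1)
    fun_prop
  have hi2 : IntervalIntegrable (fun x : ℝ => ((Real.exp (-Real.exp x) : ℝ) : ℂ) *
      Φ (x - Real.pi * I)) volume a b := by
    refine ContinuousOn.intervalIntegrable (ContinuousOn.mul ?_ hc2)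
    fun_prop
  have h3 : ∫ x in a..b, rho Φ x = (2 * Real.pi * I : ℂ)⁻¹ *
      ((∫ x in a..b, ((Real.exp (-Real.exp x) : ℝ) : ℂ) * Φ (x + Real.pi * I)) -
        ∫ x in a..b, ((Real.exp (-Real.exp x) : ℝ) : ℂ) * Φ (x - Real.pi * I)) := by
    rw [← intervalIntegral.integral_sub hi1 hi2, ← intervalIntegral.integral_const_mul]
    refine intervalIntegral.integral_congr fun x _ => ?_
    unfold rho
    ring
  rw [h3]
  unfold V
  have hpi : (Real.pi : ℂ) ≠ 0 := by exact_mod_cast Real.pi_ne_zero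
  have h4 : (∫ x in a..b, ((Real.exp (-Real.exp x) : ℝ) : ℂ) * Φ (x + Real.pi * I)) -
        ∫ x in a..b, ((Real.exp (-Real.exp x) : ℝ) : ℂ) * Φ (x - Real.pi * I) =
      I * (∫ y in (-Real.pi)..Real.pi, K (b + y * I) * Φ (b + y * I)) -
      I * (∫ y in (-Real.pi)..Real.pi, K (a + y * I) * Φ (a + y * I)) := by
    linear_combination -h1
  rw [h4]
  generalize (∫ y in (-Real.pi)..Real.pi, K (b + y * I) * Φ (b + y * I)) = A
  generalize (∫ y in (-Real.pi)..Real.pi, K (a + y * I) * Φ (a + y * I)) = B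
  have hI : I ≠ 0 := I_ne_zero
  field_simp
  ring

end Pool.Agent.W189.ML
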